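import Mathlib
import Pool.Agent.Lib.MP_551055_al.LS.TreeB

/-!
# The four point condition in trees
-/

set_option autoImplicit false

namespace Pool.Agent.Lib.TreeTits

open Pool.Agent.Lib.MP_551055_al.LS

section

variable {V : Type} {T : SimpleGraph V}

/-- An edge which separates two vertices. -/
theorem dist_sep (hT : T.IsTree) {x y u w : V} (hadj : T.Adj u w)
    (hx : T.dist x w = T.dist x u + 1) (hy : T.dist y u = T.dist y w + 1) :
    T.dist x y = T.dist x u + 1 + T.dist y w := by
  have h1 : T.dist u w = 1 := T.dist_eq_one_iff_adj.2 hadj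
  have h2 : T.dist u y = T.dist y u := T.dist_comm
  have h3 : T.dist w y = T.dist y w := T.dist_comm
  have h4 := tree_dist_add' hT (x := x) (y := u) (z := w) (w := y) (by omega) (by omega) hadj.ne
  omega

theorem dist_adj (hT : T.IsTree) {u w : V} (hadj : T.Adj u w) (x : V) :
    T.dist x u = T.dist x w + 1 ∨ T.dist x w = T.dist x u + 1 :=
  hT.dist_eq_dist_add_one_of_adj x hadj

/-- Two neighbours closer to `z` are equal. -/
theorem eq_of_closer (hT : T.IsTree) {y z u v : V} (hu : T.Adj u y) (hv : T.Adj v y)
    (h1 : T.dist z y = T.dist z u + 1) (h2 : T.dist z y = T.dist z v + 1) : u = v := by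
  have h3 : T.dist u y = 1 := T.dist_eq_one_iff_adj.2 hu
  have h4 : T.dist v y = 1 := T.dist_eq_one_iff_adj.2 hv
  exact tree_eq_of_dist hT (x := z) (z := y) (by omega) (by omega) (by omega)

theorem loc (hT : T.IsTree) {x y z u v : V} (hu : T.Adj u y) (hv : T.Adj v y) (huv : u ≠ v)
    (hx : T.dist x y = T.dist x u + 1) (hz : T.dist z y = T.dist z v + 1) :
    T.dist x z = T.dist x y + T.dist y z := by
  have h1 : T.dist z u = T.dist z y + 1 := by
    rcases dist_adj hT hu z with h | h
    · exact h
    · exact absurd (eq_of_closer hT hu hv h hz) huv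
  have h2 := dist_sep hT hu hx h1
  have h3 : T.dist z y = T.dist y z := T.dist_comm
  omega

theorem four (hT : T.IsTree) : ∀ (n : ℕ) (x y z w : V), T.dist z w = n →
    T.dist x y + T.dist z w ≤ max (T.dist x z + T.dist y w) (T.dist x w + T.dist y z) := by
  intro n
  induction n with
  | zero =>
    intro x y z w h
    have h1 : z = w := (hT.connected.dist_eq_zero_iff).1 h
    subst h1
    have h2 := hT.connected.dist_triangle (u := x) (v := z) (w := y)
    have h3 : T.dist z y = T.dist y z := T.dist_comm
    omega
  | succ n ih =>
    intro x y z w h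
    obtain ⟨w', hadj, hw'⟩ := tree_exists_pred hT h
    have h1 := ih x y z w' hw'
    have h3 : T.dist w z = T.dist z w := T.dist_comm
    have h4 : T.dist z y = T.dist y z := T.dist_comm
    have h5 : T.dist z x = T.dist x z := T.dist_comm
    have h6 : T.dist w y = T.dist y w := T.dist_comm
    have hzw : T.dist z w = T.dist z w' + 1 := by omega
    rcases dist_adj hT hadj x with hx | hx
    · -- `x` is on the side of `w`
      have h7 := dist_sep hT hadj hzw hx
      rcases dist_adj hT hadj y with hy | hy
      · have h8 := dist_sep hT hadj hzw hy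
        have h9 := hT.connected.dist_triangle (u := x) (v := w) (w := y)
        omega
      · have h8 := dist_sep hT hadj hy hx
        have h9 : T.dist y x = T.dist x y := T.dist_comm
        omega
    · rcases dist_adj hT hadj y with hy | hy
      · have h8 := dist_sep hT hadj hzw hy
        have h9 := dist_sep hT hadj hx hy
        omega
      · omega

end

end Pool.Agent.Lib.TreeTits
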